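import Pool.Agent.X172.GR.Stm

/-! Part GR_CYS: the explicit cycle. -/

set_option autoImplicit false

namespace Pool.Agent.X269.GR

open Pool.Agent.X172.GR

variable {n : ℕ} {T : ℕ → Fin 6}

/-- the word of length `l` read from `k` with the bits `f` -/
def W (T : ℕ → Fin 6) : ℕ → ℕ → (ℕ → Bool) → List Ltr
  | _, 0, _ => []
  | k, l + 1, f => (T k, f 0) :: W T (k + 1) l (fun j => f (j + 1))

theorem W_length (k l : ℕ) (f : ℕ → Bool) : (W T k l f).length = l := by
  induction l generalizing k f with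
  | zero => rfl
  | succ l ih => rw [W, List.length_cons, ih]

theorem W_rd (k l : ℕ) (f : ℕ → Bool) : Rd T k (W T k l f) := by
  induction l generalizing k f with
  | zero => trivial
  | succ l ih => exact ⟨rfl, ih _ _⟩

theorem W_bit (k l : ℕ) (f : ℕ → Bool) (j : ℕ) (hj : j < l) : bit (W T k l f) j = f j := by
  induction l generalizing k f j with
  | zero => omega
  | succ l ih =>
    cases j with
    | zero => rfl
    | succ j =>
      have := ih (k + 1) (fun j => f (j + 1)) j (by omega)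
      unfold bit at this ⊢
      rw [W, List.getD_cons_succ]
      exact this

theorem rd_append (i : ℕ) (u v : List Ltr) :
    Rd T i (u ++ v) ↔ Rd T i u ∧ Rd T (i + u.length) v := by
  induction u generalizing i with
  | nil => simp [Rd]
  | cons a u ih =>
    rw [List.cons_append, Rd, Rd, ih, List.length_cons, and_assoc]
    have : i + 1 + u.length = i + (u.length + 1) := by ring
    rw [this]

theorem rd_shift (hT : Ty n T) (i : ℕ) (v : List Ltr) : Rd T (i + n) v ↔ Rd T i v := by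
  induction v generalizing i with
  | nil => simp [Rd]
  | cons a v ih =>
    rw [Rd, Rd, hT.per]
    have : i + n + 1 = i + 1 + n := by ring
    rw [this, ih]

theorem readable_suffix {q v : List Ltr} (h : q <:+ v) (hv : Readable T v) : Readable T q := by
  obtain ⟨t, rfl⟩ := h
  obtain ⟨i, hi⟩ := hv
  exact ⟨_, ((rd_append i t q).1 hi).2⟩

theorem not_readable_cons (hT : Ty n T) (b : Bool) (v : List Ltr) :
    ¬ Readable T ((5, b) :: v) := by
  rintro ⟨i, hi⟩
  exact hT.ne5 i hi.1.symm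

theorem not_readable_mid (hT : Ty n T) (b : Bool) (y v : List Ltr) :
    ¬ Readable T (y ++ (5, b) :: v) := fun h =>
  not_readable_cons hT b v (readable_suffix (List.suffix_append y _) h)

/-- the bits of `z` -/
def zb (b : Bool) (u : ℕ) (j : ℕ) : Bool := if j = 0 then b else decide (j < u)

/-- the words `z` -/
def zz (n : ℕ) (T : ℕ → Fin 6) (b : Bool) (u : ℕ) : List Ltr := W T 0 n (zb b u)

/-- the first word -/
def w0 (n : ℕ) (T : ℕ → Fin 6) : List Ltr := W T 0 n (fun _ => false)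

/-- the words `c` -/
def cc (n : ℕ) (T : ℕ → Fin 6) (m : ℕ) : List Ltr := W T (n - m) m (fun _ => false)

/-- the unreadable words -/
def kk (n : ℕ) (T : ℕ → Fin 6) (m : ℕ) (z : List Ltr) : List Ltr :=
  w0 n T ++ ((5, true) : Ltr) :: (cc n T m ++ z)

/-- words of length `n` which are read from `0` -/
def Z0 (n : ℕ) (T : ℕ → Fin 6) (z : List Ltr) : Prop := z.length = n ∧ Rd T 0 z

theorem zz_Z0 (b : Bool) (u : ℕ) : Z0 n T (zz n T b u) := ⟨W_length _ _ _, W_rd _ _ _⟩

theorem w0_Z0 : Z0 n T (w0 n T) := ⟨W_length _ _ _, W_rd _ _ _⟩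

theorem rd_pair (hT : Ty n T) {z z' : List Ltr} (h : Z0 n T z) (h' : Z0 n T z') :
    Rd T 0 (z ++ z') := by
  rw [rd_append]
  refine ⟨h.2, ?_⟩
  rw [h.1, rd_shift hT]
  exact h'.2

theorem suf_s (hn : 4 ≤ n) (hT : Ty n T) {z : List Ltr} (h : Z0 n T z) :
    Suf n T (w0 n T ++ z) none 0 z := by
  refine ⟨w0 n T ++ z, ⟨0, rd_pair hT w0_Z0 h⟩, ?_, ?_, List.suffix_append _ _, h.1,
    Or.inl ⟨rfl, rfl⟩⟩
  · rw [List.length_append, h.1, w0_Z0.1]
    omega
  · rw [List.length_append, h.1, w0_Z0.1]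
    exact Nat.mod_eq_of_modEq (by
      unfold Nat.ModEq
      rw [Nat.add_mod_left, Nat.mod_self, Nat.zero_mod]) (by omega)

theorem rd_cz (hT : Ty n T) {m : ℕ} (hm : m < n) {z : List Ltr} (h : Z0 n T z) :
    Rd T (n - m) (cc n T m ++ z) := by
  rw [rd_append]
  refine ⟨W_rd _ _ _, ?_⟩
  have h1 : n - m + (cc n T m).length = 0 + n := by
    rw [cc, W_length]
    omega
  rw [h1, rd_shift hT]
  exact h.2

theorem rd_czwz (hT : Ty n T) {m : ℕ} (hm : m < n) {z z' : List Ltr} (h : Z0 n T z)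
    (h' : Z0 n T z') : Rd T (n - m) ((cc n T m ++ z) ++ (w0 n T ++ z')) := by
  rw [rd_append]
  refine ⟨rd_cz hT hm h, ?_⟩
  have h1 : n - m + (cc n T m ++ z).length = 0 + n + n := by
    rw [List.length_append, cc, W_length, h.1]
    omega
  rw [h1, rd_shift hT, rd_shift hT]
  exact rd_pair hT w0_Z0 h'

/-- the data of a word which ends with `$ c z` -/
theorem suf_k (hT : Ty n T) {m : ℕ} (hm : m < n) (y : List Ltr) {z : List Ltr} (h : Z0 n T z) :
    Suf n T (y ++ ((5, true) : Ltr) :: (cc n T m ++ z)) (some (5, true)) m z := by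
  refine ⟨cc n T m ++ z, ⟨_, rd_cz hT hm h⟩, ?_, ?_, List.suffix_append _ _, h.1,
    Or.inr ⟨(5, true), y, rfl, rfl, not_readable_cons hT _ _⟩⟩
  · rw [List.length_append, h.1]
    omega
  · rw [List.length_append, h.1, cc, W_length, Nat.add_mod_right, Nat.mod_eq_of_lt hm]

theorem suf_ks (hT : Ty n T) {m : ℕ} (hm : m < n) {z z' : List Ltr} (h : Z0 n T z)
    (h' : Z0 n T z') : Suf n T (kk n T m z ++ (w0 n T ++ z')) (some (5, true)) m z' := by
  refine ⟨(cc n T m ++ z) ++ (w0 n T ++ z'), ⟨_, rd_czwz hT hm h h'⟩, ?_, ?_, ?_, h'.1,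
    Or.inr ⟨(5, true), w0 n T, rfl, ?_, not_readable_cons hT _ _⟩⟩
  · simp only [List.length_append, h.1, h'.1]
    omega
  · simp only [List.length_append, h.1, h'.1, w0_Z0.1, cc, W_length]
    have : m + n + (n + n) = m + n + n + n := by ring
    rw [this, Nat.add_mod_right, Nat.add_mod_right, Nat.add_mod_right, Nat.mod_eq_of_lt hm]
  · exact (List.suffix_append _ _).trans (List.suffix_append _ _)
  · simp [kk]

/-- commutation -/
theorem comm (hT : Ty n T) {m : ℕ} (hm : m < n) {z z' : List Ltr} (h : Z0 n T z)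
    (h' : Z0 n T z') (hz : z = z' ∨ Flip n T m z z') :
    E n T ((w0 n T ++ z') ++ kk n T m z) (kk n T m z ++ (w0 n T ++ z')) := by
  constructor
  · refine Or.inr ⟨w0 n T, ?_, ?_, Or.inr w0_Z0.1⟩
    · rw [List.append_assoc]
      exact List.prefix_append _ _
    · rw [kk, List.append_assoc]
      exact List.prefix_append _ _
  · refine Or.inr (Or.inr ⟨some (5, true), m, z, z', ?_, suf_ks hT hm h h', ?_⟩)
    · have := suf_k hT hm ((w0 n T ++ z') ++ w0 n T) h
      rwa [List.append_assoc (w0 n T ++ z')] at this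
    · rcases hz with hz | hz
      · exact Or.inl hz
      · exact Or.inr ⟨rfl, hz⟩

theorem bit_ne {z z' : List Ltr} {m : ℕ} (h : Flip n T m z z') : z ≠ z' := by
  rintro rfl
  obtain ⟨-, -, k, -, -, -, -, h1, -⟩ := h
  exact h1 rfl

/-- the two flips -/
theorem flips (hn : 4 ≤ n) (b : Bool) (u : ℕ) (hu1 : 1 ≤ u) (hu2 : u ≤ n - 1) :
    ∃ m m' b1 u1 b2 u2, m < n ∧ m' < n ∧ m ≠ m' ∧ 1 ≤ u1 ∧ u1 ≤ n - 1 ∧ 1 ≤ u2 ∧ u2 ≤ n - 1 ∧
      Flip n T m (zz n T b u) (zz n T b1 u1) ∧ Flip n T m' (zz n T b u) (zz n T b2 u2) := by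
  have key : ∀ (a : ℕ) (b' : Bool) (u' : ℕ), a < n - 1 → Cond n 0 a (zz n T b u) →
      zb b u a ≠ zb b' u' a → (∀ j, j ≠ a → zb b u j = zb b' u' j) →
      Flip n T (if a = 0 then 0 else n - a) (zz n T b u) (zz n T b' u') := by
    intro a b' u' ha hc h1 h2
    have hmod : (n - (if a = 0 then 0 else n - a)) % n = a := by
      split_ifs with h0
      · rw [h0, Nat.sub_zero, Nat.mod_self]
      · have : n - (n - a) = a := by omega
        rw [this]
        exact Nat.mod_eq_of_lt (by omega)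
    refine ⟨W_length _ _ _, W_length _ _ _, 0, by omega, W_rd _ _ _, W_rd _ _ _, ?_, ?_, ?_⟩
    · rw [hmod]
      exact hc
    · rw [hmod, zz, zz, W_bit _ _ _ _ (by omega), W_bit _ _ _ _ (by omega)]
      exact h1
    · intro j hj
      rw [hmod] at hj
      by_cases hjn : j < n
      · rw [zz, zz, W_bit _ _ _ _ hjn, W_bit _ _ _ _ hjn]
        exact h2 j hj
      · unfold bit
        rw [List.getD_eq_default, List.getD_eq_default]
        · rw [zz, W_length]; omega
        · rw [zz, W_length]; omega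
  have hbit : ∀ j, 1 ≤ j → j < n → bit (zz n T b u) j = decide (j < u) := by
    intro j h1 h2
    rw [zz, W_bit _ _ _ _ h2, zb, if_neg (by omega)]
  have hdown : 2 ≤ u → Flip n T (if u - 1 = 0 then 0 else n - (u - 1)) (zz n T b u)
      (zz n T b (u - 1)) := by
    intro h2
    apply key (u - 1) b (u - 1) (by omega)
    · refine Or.inr ⟨by simp only [lo, if_true]; omega, by omega, ?_, ?_⟩
      · intro j h3 h4
        simp only [lo, if_true] at h3
        rw [hbit j h3 (by omega), decide_eq_true_eq]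
        omega
      · intro j h3 h4
        rw [hbit j (by omega) (by omega), decide_eq_false_iff_not]
        omega
    · unfold zb
      rw [if_neg (by omega), if_neg (by omega)]
      rw [decide_eq_true (by omega : u - 1 < u), decide_eq_false (by omega : ¬ u - 1 < u - 1)]
      decide
    · intro j hj
      unfold zb
      split_ifs with h0
      · rfl
      · rw [decide_eq_decide]
        omega
  have hup : u ≤ n - 2 → Flip n T (if u = 0 then 0 else n - u) (zz n T b u)
      (zz n T b (u + 1)) := by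
    intro h2
    apply key u b (u + 1) (by omega)
    · refine Or.inr ⟨by simp only [lo, if_true]; omega, by omega, ?_, ?_⟩
      · intro j h3 h4
        simp only [lo, if_true] at h3
        rw [hbit j h3 (by omega), decide_eq_true_eq]
        omega
      · intro j h3 h4
        rw [hbit j (by omega) (by omega), decide_eq_false_iff_not]
        omega
    · unfold zb
      rw [if_neg (by omega), if_neg (by omega)]
      rw [decide_eq_false (by omega : ¬ u < u), decide_eq_true (by omega : u < u + 1)]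
      decide
    · intro j hj
      unfold zb
      split_ifs with h0
      · rfl
      · rw [decide_eq_decide]
        omega
  have hzero : (u = 1 ∨ u = n - 1) → Flip n T (if (0 : ℕ) = 0 then 0 else n - 0) (zz n T b u)
      (zz n T (!b) u) := by
    intro h2
    apply key 0 (!b) u (by omega)
    · refine Or.inl ⟨rfl, rfl, ?_⟩
      rcases h2 with h2 | h2
      · right
        intro j h3 h4
        rw [hbit j h3 (by omega), decide_eq_false_iff_not]
        omega
      · left
        intro j h3 h4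
        rw [hbit j h3 (by omega), decide_eq_true_eq]
        omega
    · unfold zb
      rw [if_pos rfl, if_pos rfl]
      cases b <;> decide
    · intro j hj
      unfold zb
      rw [if_neg hj, if_neg hj]
  by_cases h1 : u = 1
  · refine ⟨_, _, _, _, _, _, ?_, ?_, ?_, ?_, ?_, ?_, ?_, hzero (Or.inl h1), hup (by omega)⟩ <;>
      (try simp only [if_true]) <;> (try split_ifs) <;> omega
  · by_cases h2 : u = n - 1
    · refine ⟨_, _, _, _, _, _, ?_, ?_, ?_, ?_, ?_, ?_, ?_, hzero (Or.inr h2),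
        hdown (by omega)⟩ <;> (try simp only [if_true]) <;> (try split_ifs) <;> omega
    · refine ⟨_, _, _, _, _, _, ?_, ?_, ?_, ?_, ?_, ?_, ?_, hup (by omega), hdown (by omega)⟩ <;>
        (try split_ifs) <;> omega

theorem t_CYS : S_CYS := by
  intro n T hn hT _ hREQ
  obtain ⟨-, huniq, -, -, -⟩ := hREQ n T hn hT
  refine ⟨{s | ∃ b u, 1 ≤ u ∧ u ≤ n - 1 ∧ s = w0 n T ++ zz n T b u},
    {κ | ∃ m b u b' u', m < n ∧ 1 ≤ u ∧ u ≤ n - 1 ∧ 1 ≤ u' ∧ u' ≤ n - 1 ∧
      Flip n T m (zz n T b u) (zz n T b' u') ∧ κ = kk n T m (zz n T b u)}, ?_, ?_, ?_, ?_, ?_, ?_, ?_⟩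
  · apply (Set.finite_range (fun x : Bool × Fin n => w0 n T ++ zz n T x.1 x.2.1)).subset
    rintro s ⟨b, u, h1, h2, rfl⟩
    exact ⟨(b, ⟨u, by omega⟩), rfl⟩
  · apply (Set.finite_range (fun x : Fin n × Bool × Fin n =>
      kk n T x.1.1 (zz n T x.2.1 x.2.2.1))).subset
    rintro s ⟨m, b, u, b', u', h0, h1, h2, h3, h4, h5, rfl⟩
    exact ⟨(⟨m, h0⟩, b, ⟨u, by omega⟩), rfl⟩
  · exact ⟨_, true, 1, le_rfl, by omega, rfl⟩
  · rintro s ⟨b, u, h1, h2, rfl⟩
    refine ⟨?_, ⟨0, rd_pair hT w0_Z0 (zz_Z0 _ _)⟩⟩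
    intro h
    have := congrArg List.length h
    rw [List.length_append, w0_Z0.1, List.length_nil] at this
    omega
  · rintro κ ⟨m, b, u, b', u', h0, h1, h2, h3, h4, h5, rfl⟩
    refine ⟨?_, not_readable_mid hT _ _ _⟩
    intro h
    have := congrArg List.length h
    rw [kk, List.length_append, w0_Z0.1, List.length_nil] at this
    omega
  · rintro s ⟨b, u, h1, h2, rfl⟩
    obtain ⟨m, m', b1, u1, b2, u2, hm, hm', hne, hu1, hu1', hu2, hu2', hf, hf'⟩ :=
      flips (T := T) hn b u h1 h2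
    refine ⟨_, ⟨m, b, u, b1, u1, hm, h1, h2, hu1, hu1', hf, rfl⟩, _,
      ⟨m', b, u, b2, u2, hm', h1, h2, hu2, hu2', hf', rfl⟩, ?_,
      comm hT hm (zz_Z0 _ _) (zz_Z0 _ _) (Or.inl rfl),
      comm hT hm' (zz_Z0 _ _) (zz_Z0 _ _) (Or.inl rfl)⟩
    rintro ⟨-, hR⟩
    have s1 : Suf n T (kk n T m (zz n T b u)) (some (5, true)) m (zz n T b u) :=
      suf_k hT hm _ (zz_Z0 _ _)
    have s2 : Suf n T (kk n T m' (zz n T b u)) (some (5, true)) m' (zz n T b u) :=
      suf_k hT hm' _ (zz_Z0 _ _)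
    rcases hR with hR | ⟨q, hq1, hq2, hq3⟩ | ⟨h, l, z, z', hz, hz', -⟩
    · rw [hR] at s1
      exact hne (huniq _ _ _ _ _ _ _ s1 s2).2.1
    · have h3 : ((5, true) : Ltr) :: (cc n T m ++ zz n T b u) <:+ q := by
        have h4 : ((5, true) : Ltr) :: (cc n T m ++ zz n T b u) <:+ kk n T m (zz n T b u) :=
          List.suffix_append _ _
        rcases List.suffix_or_suffix_of_suffix h4 hq1 with h5 | h5
        · exact h5
        · rcases List.suffix_cons_iff.1 h5 with h6 | h6
          · rw [h6]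
          · exact absurd (readable_suffix h6 ⟨_, rd_cz hT hm (zz_Z0 _ _)⟩) hq3
      obtain ⟨y, hy⟩ := h3.trans hq2
      have s3 := suf_k hT hm y (zz_Z0 (n := n) (T := T) b u)
      rw [hy] at s3
      exact hne (huniq _ _ _ _ _ _ _ s3 s2).2.1
    · exact hne ((huniq _ _ _ _ _ _ _ s1 hz).2.1.trans (huniq _ _ _ _ _ _ _ s2 hz').2.1.symm)
  · rintro κ ⟨m, b, u, b', u', h0, h1, h2, h3, h4, h5, rfl⟩
    refine ⟨_, ⟨b, u, h1, h2, rfl⟩, _, ⟨b', u', h3, h4, rfl⟩, ?_,
      comm hT h0 (zz_Z0 _ _) (zz_Z0 _ _) (Or.inl rfl),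
      comm hT h0 (zz_Z0 _ _) (zz_Z0 _ _) (Or.inr h5)⟩
    rintro ⟨-, hR⟩
    have hz := bit_ne h5
    have s1 := suf_s hn hT (zz_Z0 (n := n) (T := T) b u)
    have s2 := suf_s hn hT (zz_Z0 (n := n) (T := T) b' u')
    rcases hR with hR | ⟨q, hq1, hq2, hq3⟩ | ⟨h, l, z, z', e1, e2, e3⟩
    · exact hz (List.append_cancel_left hR)
    · exact hq3 (readable_suffix hq1 ⟨0, rd_pair hT w0_Z0 (zz_Z0 _ _)⟩)
    · obtain ⟨f1, f2, f3⟩ := huniq _ _ _ _ _ _ _ s1 e1
      obtain ⟨g1, g2, g3⟩ := huniq _ _ _ _ _ _ _ s2 e2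
      rcases e3 with e3 | ⟨e3, -⟩
      · exact hz (f3.trans (e3.trans g3.symm))
      · rw [← f1] at e3
        cases e3

end Pool.Agent.X269.GR
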